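import Pool.Agent.H94.HT3

set_option autoImplicit false

namespace Pool.Agent.Results.MP_93c926_an.SharpCost
open Set Pool.Agent.H94.HT
open scoped NNReal

theorem result (L T : ℝ) (hL : 0 < L) (hT : 0 < T) :
    (∀ (K : ℝ≥0) (w : ℝ → ℝ), LipschitzOnWith K w (Icc 0 T) → w 0 = 0 →
      ∃ C : ℝ, 0 < C ∧ ∀ ε : ℝ, 0 < ε → cost L T w ε ≤ ENNReal.ofReal (C * Real.exp (C * ε⁻¹))) ∧
    (∀ C : ℝ, 0 < C → ∃ ε : ℝ, 0 < ε ∧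
      ENNReal.ofReal (C * Real.exp (C * ε ^ (-(1 / 2 : ℝ)))) < cost L T (fun t => t) ε) ∧
    (∀ (v : ℝ → ℝ) (y y' : ℝ → ℝ → ℝ), IsSol L T v y → IsSol L T v y' →
      ∀ t ∈ Ioc 0 T, ∀ x ∈ Icc 0 L, y t x = y' t x) :=
  ⟨fun _ _ hw h0 => q1 hL hT hw h0, fun C hC => q2 hL hT C hC,
    fun _ _ _ h h' _ ht _ hx => le_antisymm (uniq hL hT h h' ht hx) (uniq hL hT h' h ht hx)⟩

end Pool.Agent.Results.MP_93c926_an.SharpCost
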